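import Pool.Agent.Lib.MP_976fcd_nt.H33Fin

/-!
Integrality of the normalised truncations of the series with terms `1103 + 26390 k`.
-/

namespace Pool.Agent.Results.MP_976fcd_nt.Integrality

open Finset Nat

/-- The multinomial coefficient `(4 k)! / (k!) ^ 4`. -/
def M (k : ℕ) : ℚ := ((4 * k)! : ℚ) / (k ! : ℚ) ^ 4

/-- The normalised truncation `a n`. -/
def a (n : ℕ) : ℚ :=
  1 / (2 * (n : ℚ) * (2 * (n : ℚ) + 1) * ((2 * n).choose n : ℚ)) *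
    ∑ k ∈ range n, (1103 + 26390 * (k : ℚ)) * M k * 396 ^ (4 * (n - k - 1))

lemma a_eq (n : ℕ) : a n = (R1103.Sn n : ℚ) / (2 * R1103.Dn n : ℕ) := by
  have h : ∀ k, M k = (R1103.Mk k : ℚ) := fun k => by
    rw [M, ← R1103.Mk_mul k]
    push_cast
    field_simp
  simp only [a, h, R1103.Sn_eq, R1103.Dn, centralBinom_eq_two_mul_choose]
  push_cast
  ring

theorem result (n : ℕ) (hn : 2 ≤ n) :
    ((¬∃ r : ℕ, 2 * n + 1 = 3 ^ r) → ∃ z : ℤ, a n = z) ∧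
    ((∃ r : ℕ, 2 * n + 1 = 3 ^ r) → ∃ z : ℤ, 3 * a n = z ∧ ¬(3 : ℤ) ∣ z) := by
  obtain ⟨k, rfl⟩ : ∃ k, n = k + 1 := ⟨n - 1, by omega⟩
  have hk : 1 ≤ k := by omega
  have h0 : ((2 * R1103.Dn (k + 1) : ℕ) : ℚ) ≠ 0 :=
    Nat.cast_ne_zero.2 (mul_ne_zero two_ne_zero (R1103.Dn_ne k))
  rw [a_eq]
  refine ⟨fun h => ?_, fun ⟨r, h⟩ => ?_⟩
  · obtain ⟨z, hz⟩ := R1103.dvd_not_pow hk h
    exact ⟨z, by rw [hz, Nat.cast_mul, mul_div_cancel_left₀ _ h0, Int.cast_natCast]⟩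
  · obtain ⟨z, hz⟩ := R1103.dvd_three_mul hk
    refine ⟨z, ?_, fun h3 => R1103.not_dvd_pow h ?_⟩
    · rw [← mul_div_assoc, div_eq_iff h0, mul_comm (_ : ℚ) ((2 * R1103.Dn (k + 1) : ℕ) : ℚ)]
      exact_mod_cast hz
    · obtain ⟨y, rfl⟩ := Int.natCast_dvd_natCast.1 (show ((3 : ℕ) : ℤ) ∣ z from h3)
      exact ⟨2 * y, by linarith⟩

end Pool.Agent.Results.MP_976fcd_nt.Integrality
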